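import Mathlib
import Pool.Agent.R143.MonoPath

set_option autoImplicit false

/-!
# Dense planar sets with superlinear monotone path covers: the point set

The points `P + h(P) (√2, 1)` of a perturbed grid, where `h(P)` grows exponentially with the
position of `P` in the row by row enumeration of the grid.
-/

namespace Pool.Agent.T6.H92.MC

open Pool.Agent.R143.MonoPath Finset

/-- the base of the powers -/
noncomputable def K (m : ℕ) : ℝ := (m : ℝ) ^ 2 + 2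

theorem K_gt (m : ℕ) : 1 < K m := by
  unfold K
  have := sq_nonneg (m : ℝ)
  linarith

theorem K_pos (m : ℕ) : 0 < K m := by linarith [K_gt m]

theorem slope_lt {m a a' s s' : ℕ} (h1 : a < s) (h2 : a' < s) (h3 : s < s') (h4 : s' < m ^ 2) :
    (K m ^ s - K m ^ a) * ((s' : ℝ) - a') < (K m ^ s' - K m ^ a') * ((s : ℝ) - a) := by
  have hK1 : 1 ≤ K m := (K_gt m).le
  have hs : 0 < K m ^ s := pow_pos (K_pos m) _
  have ha : 0 < K m ^ a := pow_pos (K_pos m) _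
  have ha' : K m ^ a' ≤ K m ^ s := pow_le_pow_right₀ hK1 h2.le
  have has : K m ^ a ≤ K m ^ s := pow_le_pow_right₀ hK1 h1.le
  have hs' : K m ^ s * K m ≤ K m ^ s' := by
    rw [← pow_succ]
    exact pow_le_pow_right₀ hK1 h3
  have e0 : ((s' : ℝ)) ≤ (m : ℝ) ^ 2 := by exact_mod_cast h4.le
  have e1 : ((s' : ℝ) - a') ≤ (m : ℝ) ^ 2 := by
    have : (0 : ℝ) ≤ a' := Nat.cast_nonneg _
    linarith
  have e1' : 0 ≤ ((s' : ℝ) - a') := by
    have : (a' : ℝ) ≤ s' := by exact_mod_cast (by omega : a' ≤ s')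
    linarith
  have e2 : (1 : ℝ) ≤ (s : ℝ) - a := by
    have : ((a : ℝ) + 1) ≤ s := by exact_mod_cast h1
    linarith
  have e3 : (K m ^ s - K m ^ a) * ((s' : ℝ) - a') ≤ K m ^ s * (m : ℝ) ^ 2 :=
    mul_le_mul (by linarith) e1 e1' hs.le
  have e4 : K m ^ s * (K m - 1) * 1 ≤ (K m ^ s' - K m ^ a') * ((s : ℝ) - a) := by
    apply mul_le_mul _ e2 (by norm_num)
    · have : 0 < K m ^ s * (K m - 1) := mul_pos hs (by linarith [K_gt m])
      nlinarith
    · nlinarith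
  have e5 : K m ^ s * (m : ℝ) ^ 2 < K m ^ s * (K m - 1) * 1 := by
    rw [mul_one]
    apply mul_lt_mul_of_pos_left _ hs
    unfold K
    linarith
  linarith

theorem collin_ne {m p q r : ℕ} (hpq : p ≠ q) (hqr : q ≠ r) (hpr : p ≠ r) (hp : p < m ^ 2)
    (hq : q < m ^ 2) (hr : r < m ^ 2) :
    (K m ^ r - K m ^ p) * ((q : ℝ) - p) ≠ (K m ^ q - K m ^ p) * ((r : ℝ) - p) := by
  intro h
  rcases lt_or_gt_of_ne hpq with h1 | h1 <;> rcases lt_or_gt_of_ne hqr with h2 | h2 <;>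
    rcases lt_or_gt_of_ne hpr with h3 | h3
  · -- p < q < r
    have := slope_lt (m := m) h1 h1 h2 hr
    linarith
  · omega
  · -- p < q, r < q, p < r
    have := slope_lt (m := m) h3 h3 h2 hq
    linarith
  · -- r < p < q
    have := slope_lt (m := m) h3 h3 h1 hq
    linarith
  · -- q < p, q < r, p < r
    have := slope_lt (m := m) h1 h1 h3 hr
    linarith
  · -- q < r < p
    have := slope_lt (m := m) h2 h2 h3 hp
    linarith
  · omega
  · -- r < q < p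
    have := slope_lt (m := m) h2 h2 h1 hp
    linarith

/-- the position of a grid point -/
def ph (m : ℕ) (P : ℕ × ℕ) : ℕ := P.1 + m * P.2

/-- `P` is in the grid -/
def Gr (m : ℕ) (P : ℕ × ℕ) : Prop := P.1 < m ∧ P.2 < m

theorem ph_lt {m : ℕ} {P : ℕ × ℕ} (h : Gr m P) : ph m P < m ^ 2 := by
  unfold ph
  obtain ⟨h1, h2⟩ := h
  have : m * (P.2 + 1) ≤ m * m := Nat.mul_le_mul_left m h2
  nlinarith

theorem ph_inj {m : ℕ} {P Q : ℕ × ℕ} (hP : Gr m P) (hQ : Gr m Q) (h : ph m P = ph m Q) :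
    P = Q := by
  unfold ph at h
  have h1 : P.1 = Q.1 := by
    have e1 : (P.1 + m * P.2) % m = P.1 := by
      rw [Nat.add_mul_mod_self_left, Nat.mod_eq_of_lt hP.1]
    have e2 : (Q.1 + m * Q.2) % m = Q.1 := by
      rw [Nat.add_mul_mod_self_left, Nat.mod_eq_of_lt hQ.1]
    rw [← e1, h, e2]
  have h2 : P.2 = Q.2 := by
    have hm : 0 < m := lt_of_le_of_lt (Nat.zero_le _) hP.1
    have : m * P.2 = m * Q.2 := by omega
    exact Nat.eq_of_mul_eq_mul_left hm this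
  exact Prod.ext h1 h2

/-- the unit of the displacements -/
noncomputable def ee (m : ℕ) : ℝ := 1 / (10 * ((m : ℝ) + 1) * K m ^ (m ^ 2))

theorem ee_pos (m : ℕ) : 0 < ee m := by
  unfold ee
  have := pow_pos (K_pos m) (m ^ 2)
  positivity

/-- the displacement -/
noncomputable def hh (m : ℕ) (P : ℕ × ℕ) : ℝ := ee m * K m ^ ph m P

theorem hh_pos (m : ℕ) (P : ℕ × ℕ) : 0 < hh m P := mul_pos (ee_pos m) (pow_pos (K_pos m) _)

theorem hh_le {m : ℕ} {P : ℕ × ℕ} (h : Gr m P) : hh m P ≤ 1 / (10 * ((m : ℝ) + 1)) := by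
  unfold hh ee
  have h1 : K m ^ ph m P ≤ K m ^ (m ^ 2) := pow_le_pow_right₀ (K_gt m).le (ph_lt h).le
  have h2 := pow_pos (K_pos m) (m ^ 2)
  have h3 : (0 : ℝ) < 10 * ((m : ℝ) + 1) := by positivity
  rw [div_mul_eq_mul_div, one_mul, div_le_div_iff₀ (by positivity) h3]
  nlinarith

theorem hh_le' {m : ℕ} {P : ℕ × ℕ} (h : Gr m P) : hh m P ≤ 1 / 20 := by
  refine (hh_le h).trans ?_
  have h1 : 1 ≤ m := by have := h.1; omega
  have h2 : (1 : ℝ) ≤ m := by exact_mod_cast h1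
  apply one_div_le_one_div_of_le (by norm_num)
  linarith

/-- the points -/
noncomputable def f (m : ℕ) (P : ℕ × ℕ) : Plane :=
  !₂[(P.1 : ℝ) + √2 * hh m P, (P.2 : ℝ) + hh m P]

@[simp] theorem f_zero (m : ℕ) (P : ℕ × ℕ) : (f m P) 0 = (P.1 : ℝ) + √2 * hh m P := by simp [f]
@[simp] theorem f_one (m : ℕ) (P : ℕ × ℕ) : (f m P) 1 = (P.2 : ℝ) + hh m P := by simp [f]

theorem sqrt2_lt : √2 < 3 / 2 := by
  rw [Real.sqrt_lt' (by norm_num)]
  norm_num

theorem sqrt2_pos : 0 < √(2 : ℝ) := Real.sqrt_pos.mpr (by norm_num)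

theorem sqrt_lin {p q : ℤ} (h : (p : ℝ) = √2 * q) : p = 0 ∧ q = 0 := by
  have hirr := irrational_sqrt_two
  by_cases hq : q = 0
  · subst hq
    simp only [Int.cast_zero, mul_zero, Int.cast_eq_zero] at h
    exact ⟨h, rfl⟩
  · exfalso
    apply hirr
    refine ⟨(p : ℚ) / q, ?_⟩
    have : (q : ℝ) ≠ 0 := by exact_mod_cast hq
    push_cast
    rw [div_eq_iff this]
    linarith

theorem not_collinear {a b c : Plane}
    (h : (b 0 - a 0) * (c 1 - a 1) - (b 1 - a 1) * (c 0 - a 0) ≠ 0) :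
    ¬ Collinear ℝ ({a, b, c} : Set Plane) := by
  intro hc
  apply h
  rw [collinear_iff_of_mem (p₀ := a) (by simp)] at hc
  obtain ⟨v, hv⟩ := hc
  obtain ⟨r, hr⟩ := hv b (by simp)
  obtain ⟨s, hs⟩ := hv c (by simp)
  rw [hr, hs]
  simp only [vadd_eq_add, PiLp.add_apply, PiLp.smul_apply, smul_eq_mul]
  ring

theorem abs_sub_cast_le {m a b : ℕ} (ha : a < m) (hb : b < m) : |(a : ℝ) - b| ≤ m := by
  have h1 : (a : ℝ) < m := by exact_mod_cast ha
  have h2 : (b : ℝ) < m := by exact_mod_cast hb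
  have h3 : (0 : ℝ) ≤ a := Nat.cast_nonneg _
  have h4 : (0 : ℝ) ≤ b := Nat.cast_nonneg _
  rw [abs_le]
  constructor <;> linarith

theorem general {m : ℕ} {P Q R : ℕ × ℕ} (hP : Gr m P) (hQ : Gr m Q) (hR : Gr m R)
    (hPQ : P ≠ Q) (hQR : Q ≠ R) (hPR : P ≠ R) :
    ¬ Collinear ℝ ({f m P, f m Q, f m R} : Set Plane) := by
  apply not_collinear
  simp only [f_zero, f_one]
  intro hdet
  -- the integer part
  obtain ⟨D, hD⟩ : ∃ D : ℤ, D = ((Q.1 : ℤ) - P.1) * ((R.2 : ℤ) - P.2) -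
    ((Q.2 : ℤ) - P.2) * ((R.1 : ℤ) - P.1) := ⟨_, rfl⟩
  have hexp : (D : ℝ) + ((((Q.1 : ℝ) - P.1) * (hh m R - hh m P) - ((R.1 : ℝ) - P.1) *
      (hh m Q - hh m P)) - √2 * (((Q.2 : ℝ) - P.2) * (hh m R - hh m P) - ((R.2 : ℝ) - P.2) *
      (hh m Q - hh m P))) = 0 := by
    rw [← hdet, hD]
    push_cast
    ring
  have hm : (0 : ℝ) < (m : ℝ) + 1 := by positivity
  by_cases hD0 : D = 0
  · rw [hD0, Int.cast_zero, zero_add] at hexp
    -- integer coefficients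
    have hKc : ∀ j : ℕ, K m ^ j = (((m ^ 2 + 2 : ℕ) ^ j : ℕ) : ℝ) := by
      intro j
      unfold K
      push_cast
      rfl
    obtain ⟨I1, hI1⟩ : ∃ I1 : ℤ, I1 = ((Q.1 : ℤ) - P.1) *
        ((((m ^ 2 + 2) ^ ph m R : ℕ) : ℤ) - (((m ^ 2 + 2) ^ ph m P : ℕ) : ℤ)) -
        ((R.1 : ℤ) - P.1) *
        ((((m ^ 2 + 2) ^ ph m Q : ℕ) : ℤ) - (((m ^ 2 + 2) ^ ph m P : ℕ) : ℤ)) := ⟨_, rfl⟩
    obtain ⟨I2, hI2⟩ : ∃ I2 : ℤ, I2 = ((Q.2 : ℤ) - P.2) *
        ((((m ^ 2 + 2) ^ ph m R : ℕ) : ℤ) - (((m ^ 2 + 2) ^ ph m P : ℕ) : ℤ)) -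
        ((R.2 : ℤ) - P.2) *
        ((((m ^ 2 + 2) ^ ph m Q : ℕ) : ℤ) - (((m ^ 2 + 2) ^ ph m P : ℕ) : ℤ)) := ⟨_, rfl⟩
    have e1 : (I1 : ℝ) = √2 * I2 := by
      have h1 : ee m * ((I1 : ℝ) - √2 * I2) = 0 := by
        rw [← hexp, hI1, hI2]
        unfold hh
        simp only [hKc]
        push_cast
        ring
      rcases mul_eq_zero.mp h1 with h2 | h2
      · exact absurd h2 (ee_pos m).ne'
      · linarith
    obtain ⟨z1, z2⟩ := sqrt_lin e1
    -- the exponential points are collinear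
    have h1 : ph m P ≠ ph m Q := fun h => hPQ (ph_inj hP hQ h)
    have h2 : ph m Q ≠ ph m R := fun h => hQR (ph_inj hQ hR h)
    have h3 : ph m P ≠ ph m R := fun h => hPR (ph_inj hP hR h)
    refine collin_ne (m := m) h1 h2 h3 (ph_lt hP) (ph_lt hQ) (ph_lt hR) ?_
    have z1' : (I1 : ℝ) = 0 := by exact_mod_cast z1
    have z2' : (I2 : ℝ) = 0 := by exact_mod_cast z2
    rw [hI1] at z1'
    rw [hI2] at z2'
    push_cast at z1' z2'
    have key : ((I1 : ℤ) : ℝ) + m * I2 = 0 := by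
      rw [z1, z2]
      simp
    rw [hI1, hI2] at key
    push_cast at key
    unfold ph K
    push_cast
    unfold ph at key
    linarith
  · have hD1 : (1 : ℝ) ≤ |(D : ℝ)| := by
      rw [← Int.cast_abs]
      exact_mod_cast Int.one_le_abs hD0
    have hp := hh_pos m P
    have hq := hh_pos m Q
    have hr := hh_pos m R
    have hp' := hh_le hP
    have hq' := hh_le hQ
    have hr' := hh_le hR
    set δ : ℝ := 1 / (10 * ((m : ℝ) + 1)) with hδ
    have hδm : δ * m ≤ 1 / 10 := by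
      rw [hδ, div_mul_eq_mul_div, one_mul, div_le_div_iff₀ (by positivity) (by norm_num)]
      linarith
    have b1 : |hh m R - hh m P| ≤ δ := by rw [abs_le]; constructor <;> linarith
    have b2 : |hh m Q - hh m P| ≤ δ := by rw [abs_le]; constructor <;> linarith
    have hδ0 : 0 ≤ δ := by rw [hδ]; positivity
    have c1 := abs_sub_cast_le hQ.1 hP.1
    have c2 := abs_sub_cast_le hR.1 hP.1
    have c3 := abs_sub_cast_le hQ.2 hP.2
    have c4 := abs_sub_cast_le hR.2 hP.2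
    have hm0 : (0 : ℝ) ≤ m := Nat.cast_nonneg _
    have p1 : |((Q.1 : ℝ) - P.1) * (hh m R - hh m P)| ≤ 1 / 10 := by
      rw [abs_mul]
      calc _ ≤ (m : ℝ) * δ := mul_le_mul c1 b1 (abs_nonneg _) hm0
        _ ≤ 1 / 10 := by linarith
    have p2 : |((R.1 : ℝ) - P.1) * (hh m Q - hh m P)| ≤ 1 / 10 := by
      rw [abs_mul]
      calc _ ≤ (m : ℝ) * δ := mul_le_mul c2 b2 (abs_nonneg _) hm0
        _ ≤ 1 / 10 := by linarith
    have p3 : |((Q.2 : ℝ) - P.2) * (hh m R - hh m P)| ≤ 1 / 10 := by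
      rw [abs_mul]
      calc _ ≤ (m : ℝ) * δ := mul_le_mul c3 b1 (abs_nonneg _) hm0
        _ ≤ 1 / 10 := by linarith
    have p4 : |((R.2 : ℝ) - P.2) * (hh m Q - hh m P)| ≤ 1 / 10 := by
      rw [abs_mul]
      calc _ ≤ (m : ℝ) * δ := mul_le_mul c4 b2 (abs_nonneg _) hm0
        _ ≤ 1 / 10 := by linarith
    have s2 := sqrt2_lt
    have s0 := sqrt2_pos
    rw [abs_le] at p1 p2 p3 p4
    have q1 : |√2 * (((Q.2 : ℝ) - P.2) * (hh m R - hh m P) - ((R.2 : ℝ) - P.2) *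
        (hh m Q - hh m P))| ≤ 3 / 10 := by
      rw [abs_mul, abs_of_pos s0]
      have : |((Q.2 : ℝ) - P.2) * (hh m R - hh m P) - ((R.2 : ℝ) - P.2) *
        (hh m Q - hh m P)| ≤ 2 / 10 := by
        rw [abs_le]
        constructor <;> linarith [p3.1, p3.2, p4.1, p4.2]
      calc _ ≤ (3 / 2 : ℝ) * (2 / 10) := mul_le_mul s2.le this (abs_nonneg _) (by norm_num)
        _ = 3 / 10 := by norm_num
    rw [abs_le] at q1
    rcases le_abs.mp hD1 with h | h <;> linarith [p1.1, p1.2, p2.1, p2.2, q1.1, q1.2]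

theorem dist_f (m : ℕ) (P Q : ℕ × ℕ) : dist (f m P) (f m Q) =
    √(((P.1 : ℝ) + √2 * hh m P - (Q.1 + √2 * hh m Q)) ^ 2 +
      ((P.2 : ℝ) + hh m P - (Q.2 + hh m Q)) ^ 2) := by
  rw [EuclideanSpace.dist_eq, Fin.sum_univ_two]
  simp only [f_zero, f_one, Real.dist_eq, sq_abs]

theorem nat_sub_cases {a b : ℕ} (h : a ≠ b) : (1 : ℝ) ≤ (a : ℝ) - b ∨ (1 : ℝ) ≤ (b : ℝ) - a := by
  rcases lt_or_gt_of_ne h with h1 | h1
  · right
    have : ((a : ℝ) + 1) ≤ b := by exact_mod_cast h1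
    linarith
  · left
    have : ((b : ℝ) + 1) ≤ a := by exact_mod_cast h1
    linarith

theorem near {m : ℕ} {P Q : ℕ × ℕ} (hP : Gr m P) (hQ : Gr m Q) (h : P ≠ Q) :
    1 / 2 ≤ dist (f m P) (f m Q) := by
  rw [dist_f]
  apply Real.le_sqrt_of_sq_le
  have hp := hh_pos m P
  have hq := hh_pos m Q
  have hp' := hh_le' hP
  have hq' := hh_le' hQ
  have s2 := sqrt2_lt
  have s0 := sqrt2_pos
  have t1 : √2 * hh m P ≤ 3 / 40 := by nlinarith
  have t2 : √2 * hh m Q ≤ 3 / 40 := by nlinarith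
  have t3 : 0 < √2 * hh m P := mul_pos s0 hp
  have t4 : 0 < √2 * hh m Q := mul_pos s0 hq
  have hne : P.1 ≠ Q.1 ∨ P.2 ≠ Q.2 := by
    by_contra hc
    push Not at hc
    exact h (Prod.ext hc.1 hc.2)
  rcases hne with h1 | h1
  · have := sq_nonneg ((P.2 : ℝ) + hh m P - (Q.2 + hh m Q))
    rcases nat_sub_cases h1 with h2 | h2 <;> nlinarith
  · have := sq_nonneg ((P.1 : ℝ) + √2 * hh m P - (Q.1 + √2 * hh m Q))
    rcases nat_sub_cases h1 with h2 | h2 <;> nlinarith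

theorem far {m : ℕ} {P Q : ℕ × ℕ} (hP : Gr m P) (hQ : Gr m Q) :
    dist (f m P) (f m Q) ≤ 2 * m := by
  rw [dist_f]
  have hp := hh_pos m P
  have hq := hh_pos m Q
  have hp' := hh_le' hP
  have hq' := hh_le' hQ
  have s2 := sqrt2_lt
  have s0 := sqrt2_pos
  have t1 : √2 * hh m P ≤ 3 / 40 := by nlinarith
  have t2 : √2 * hh m Q ≤ 3 / 40 := by nlinarith
  have t3 : 0 < √2 * hh m P := mul_pos s0 hp
  have t4 : 0 < √2 * hh m Q := mul_pos s0 hq
  have c : ∀ a b : ℕ, a < m → b < m → |(a : ℝ) - b| ≤ m - 1 := by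
    intro a b ha hb
    have h1 : (a : ℝ) + 1 ≤ m := by exact_mod_cast ha
    have h2 : (b : ℝ) + 1 ≤ m := by exact_mod_cast hb
    have h3 : (0 : ℝ) ≤ a := Nat.cast_nonneg _
    have h4 : (0 : ℝ) ≤ b := Nat.cast_nonneg _
    rw [abs_le]
    constructor <;> linarith
  have c1 := abs_le.mp (c P.1 Q.1 hP.1 hQ.1)
  have c2 := abs_le.mp (c P.2 Q.2 hP.2 hQ.2)
  have hm1 : (1 : ℝ) ≤ m := by
    have : 1 ≤ m := by have := hP.1; omega
    exact_mod_cast this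
  rw [Real.sqrt_le_left (by linarith)]
  have d1 : |(P.1 : ℝ) + √2 * hh m P - (Q.1 + √2 * hh m Q)| ≤ m := by
    rw [abs_le]
    constructor <;> linarith [c1.1, c1.2]
  have d2 : |(P.2 : ℝ) + hh m P - (Q.2 + hh m Q)| ≤ m := by
    rw [abs_le]
    constructor <;> linarith [c2.1, c2.2]
  have d3 := sq_le_sq' (abs_le.mp d1).1 (abs_le.mp d1).2
  have d4 := sq_le_sq' (abs_le.mp d2).1 (abs_le.mp d2).2
  nlinarith

theorem f_inj {m : ℕ} {P Q : ℕ × ℕ} (hP : Gr m P) (hQ : Gr m Q) (h : f m P = f m Q) : P = Q := by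
  by_contra hne
  have := near hP hQ hne
  rw [h, dist_self] at this
  norm_num at this

end Pool.Agent.T6.H92.MC
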