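import Mathlib
import Pool.Agent.T6.H92.MC.Basic

set_option autoImplicit false

/-!
# Monotone paths and grid lines

A monotone path uses at most four long segments of each grid line.
-/

namespace Pool.Agent.T6.H92.MC

open Pool.Agent.R143.MonoPath Finset

/-- the value at the point `P` of the linear form `⟨·, u⟩` -/
noncomputable def X (m : ℕ) (u : Plane) (P : ℕ × ℕ) : ℝ := inner ℝ (f m P) u

theorem X_eq (m : ℕ) (u : Plane) (P : ℕ × ℕ) :
    X m u P = P.1 * u 0 + P.2 * u 1 + hh m P * (√2 * u 0 + u 1) := by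
  unfold X
  rw [inner_eq]
  simp only [f_zero, f_one]
  ring

theorem X_neg (m : ℕ) (u : Plane) (P : ℕ × ℕ) : X m (-u) P = - X m u P := by
  unfold X
  rw [inner_neg_right]

/-- the grid line through `P` in the direction `(p, q)` -/
def ky (p q : ℕ) (P : ℕ × ℕ) : ℤ := (q : ℤ) * P.1 - (p : ℤ) * P.2

/-- difference of the values on a line, up to a positive factor -/
noncomputable def T (m : ℕ) (A B : ℝ) (a s : ℕ) : ℝ :=
  ((s : ℝ) - a) * A + B * (K m ^ s - K m ^ a)

theorem X_line {m p q : ℕ} {u : Plane} {P Q : ℕ × ℕ} (h : ky p q P = ky p q Q) :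
    ((p : ℝ) + m * q) * (X m u Q - X m u P) =
      T m (p * u 0 + q * u 1) (((p : ℝ) + m * q) * (√2 * u 0 + u 1) * ee m) (ph m P) (ph m Q) := by
  unfold ky at h
  have h' : (q : ℝ) * P.1 - p * P.2 = q * Q.1 - p * Q.2 := by exact_mod_cast h
  rw [X_eq, X_eq]
  unfold T hh ph
  push_cast
  have e : ((p : ℝ) + m * q) * ((Q.1 : ℝ) * u 0 + Q.2 * u 1 - (P.1 * u 0 + P.2 * u 1)) =
      ((Q.1 : ℝ) + m * Q.2 - (P.1 + m * P.2)) * (p * u 0 + q * u 1) := by
    have h1 : (q : ℝ) * (Q.1 - P.1) = p * (Q.2 - P.2) := by linarith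
    linear_combination (m * u 0 - u 1) * h1
  linear_combination e

theorem T_univ_lt {m : ℕ} {A B : ℝ} {a a' s s' : ℕ} (h : s < s') (hs' : s' < m ^ 2)
    (ha : a < s) (ha' : a' < s) (h1 : 0 < T m A B a s) (h2 : 0 < T m A B a' s') :
    (∀ b, b < s → 0 < T m A B b s) ∨ (∀ b, b < s → 0 < T m A B b s') := by
  have c : ∀ x y : ℕ, x < y → (0 : ℝ) < (y : ℝ) - x := by
    intro x y hxy
    have : (x : ℝ) < y := by exact_mod_cast hxy
    linarith
  rcases le_or_gt 0 B with hB | hB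
  · right
    intro b hb
    have hsl := slope_lt (m := m) ha hb h hs'
    have e : ((s' : ℝ) - b) * T m A B a s ≤ ((s : ℝ) - a) * T m A B b s' := by
      unfold T
      nlinarith
    have e2 : 0 < ((s' : ℝ) - b) * T m A B a s := mul_pos (c _ _ (by omega)) h1
    exact (pos_iff_pos_of_mul_pos (lt_of_lt_of_le e2 e)).mp (c _ _ ha)
  · left
    intro b hb
    have hsl := slope_lt (m := m) hb ha' h hs'
    have e : ((s : ℝ) - b) * T m A B a' s' ≤ ((s' : ℝ) - a') * T m A B b s := by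
      unfold T
      nlinarith
    have e2 : 0 < ((s : ℝ) - b) * T m A B a' s' := mul_pos (c _ _ hb) h2
    exact (pos_iff_pos_of_mul_pos (lt_of_lt_of_le e2 e)).mp (c _ _ (by omega))

theorem T_univ {m : ℕ} {A B : ℝ} {a a' s s' b : ℕ} (h : s ≠ s') (hs : s < m ^ 2)
    (hs' : s' < m ^ 2) (ha : a < s) (ha2 : a < s') (ha' : a' < s) (ha2' : a' < s')
    (h1 : 0 < T m A B a s) (h2 : 0 < T m A B a' s') (hb : b < s) (hb' : b < s') :
    0 < T m A B b s ∨ 0 < T m A B b s' := by
  rcases lt_or_gt_of_ne h with h3 | h3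
  · rcases T_univ_lt h3 hs' ha ha' h1 h2 with h4 | h4
    · exact Or.inl (h4 b hb)
    · exact Or.inr (h4 b hb)
  · rcases T_univ_lt h3 hs ha2' ha2 h2 h1 with h4 | h4
    · exact Or.inr (h4 b hb')
    · exact Or.inl (h4 b hb')

/-- the points of the first block -/
def Lo (k : ℕ) (P : ℕ × ℕ) : Prop := P.1 < k ∧ P.2 < k
/-- the points of the last block -/
def Hi (k : ℕ) (P : ℕ × ℕ) : Prop := 4 * k ≤ P.2

theorem lo_hi {m k p q : ℕ} {P Q : ℕ × ℕ} (hp : 0 < p) (hq : 0 < q) (hP : Lo k P) (hQ : Hi k Q)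
    (h : ky p q P = ky p q Q) : ph m P < ph m Q := by
  unfold ky at h
  unfold Lo at hP
  unfold Hi at hQ
  have h2 : P.2 < Q.2 := by omega
  have h1 : P.1 < Q.1 := by
    by_contra hc
    push Not at hc
    have e1 : (q : ℤ) * Q.1 ≤ q * P.1 := by
      apply mul_le_mul_of_nonneg_left _ (by positivity)
      exact_mod_cast hc
    have e2 : (p : ℤ) * P.2 < p * Q.2 := by
      apply mul_lt_mul_of_pos_left
      · exact_mod_cast h2
      · exact_mod_cast hp
    linarith
  unfold ph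
  have := Nat.mul_le_mul_left m h2.le
  omega

theorem core {m k p q : ℕ} {u : Plane} (hp : 0 < p) (hq : 0 < q)
    {x1 x2 x3 y1 y2 : ℕ × ℕ} (hx1 : Lo k x1) (hx2 : Lo k x2) (hx3 : Lo k x3)
    (hy1 : Hi k y1) (hy2 : Hi k y2) (gy1 : Gr m y1) (gy2 : Gr m y2) (c : ℤ)
    (kx1 : ky p q x1 = c) (kx2 : ky p q x2 = c) (kx3 : ky p q x3 = c) (ky1 : ky p q y1 = c)
    (ky2 : ky p q y2 = c) (hne : y1 ≠ y2) (h1 : X m u x1 < X m u y1) (h2 : X m u x2 < X m u y2)
    (h3 : X m u y1 ≤ X m u x3) (h4 : X m u y2 ≤ X m u x3) : False := by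
  have hL : (0 : ℝ) < (p : ℝ) + m * q := by positivity
  have l1 := X_line (m := m) (u := u) (kx1.trans ky1.symm)
  have l2 := X_line (m := m) (u := u) (kx2.trans ky2.symm)
  have l3 := X_line (m := m) (u := u) (kx3.trans ky1.symm)
  have l4 := X_line (m := m) (u := u) (kx3.trans ky2.symm)
  have t1 := mul_pos hL (sub_pos.mpr h1)
  have t2 := mul_pos hL (sub_pos.mpr h2)
  rw [l1] at t1
  rw [l2] at t2
  have t3 : ((p : ℝ) + m * q) * (X m u y1 - X m u x3) ≤ 0 :=
    mul_nonpos_of_nonneg_of_nonpos hL.le (by linarith)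
  have t4 : ((p : ℝ) + m * q) * (X m u y2 - X m u x3) ≤ 0 :=
    mul_nonpos_of_nonneg_of_nonpos hL.le (by linarith)
  rw [l3] at t3
  rw [l4] at t4
  have hs : ph m y1 ≠ ph m y2 := fun h => hne (ph_inj gy1 gy2 h)
  have := T_univ hs (ph_lt gy1) (ph_lt gy2)
    (lo_hi hp hq hx1 hy1 (kx1.trans ky1.symm)) (lo_hi hp hq hx1 hy2 (kx1.trans ky2.symm))
    (lo_hi hp hq hx2 hy1 (kx2.trans ky1.symm)) (lo_hi hp hq hx2 hy2 (kx2.trans ky2.symm))
    t1 t2
    (lo_hi hp hq hx3 hy1 (kx3.trans ky1.symm)) (lo_hi hp hq hx3 hy2 (kx3.trans ky2.symm))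
  rcases this with h | h <;> linarith

theorem card_le_two {s : Finset ℕ} (h : ∀ i ∈ s, ∀ j ∈ s, ∀ l ∈ s, i < j → j < l → False) :
    s.card ≤ 2 := by
  by_contra hc
  push Not at hc
  obtain ⟨t, ht, hcard⟩ := Finset.exists_subset_card_eq (s := s) (n := 3) (by omega)
  let e := t.orderEmbOfFin hcard
  have hm : ∀ i, e i ∈ s := fun i => ht (Finset.orderEmbOfFin_mem t hcard i)
  exact h _ (hm 0) _ (hm 1) _ (hm 2) (e.strictMono (by decide)) (e.strictMono (by decide))

section path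

variable {m k p q : ℕ} {u : Plane} {z : ℕ → ℕ × ℕ} {t : ℕ}

theorem mono_lt (hmono : ∀ i, i + 1 < t → X m u (z i) < X m u (z (i + 1))) {i j : ℕ} (hij : i < j)
    (hj : j < t) : X m u (z i) < X m u (z j) := by
  induction j, hij using Nat.le_induction with
  | base => exact hmono i hj
  | succ j hij ih => exact (ih (by omega)).trans (hmono j hj)

theorem mono_le (hmono : ∀ i, i + 1 < t → X m u (z i) < X m u (z (i + 1))) {i j : ℕ} (hij : i ≤ j)
    (hj : j < t) : X m u (z i) ≤ X m u (z j) := by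
  rcases hij.eq_or_lt with h | h
  · rw [h]
  · exact (mono_lt hmono h hj).le

/-- the segments of the path that are long segments of a line in direction `(p, q)` -/
def Seg (k p q : ℕ) (z : ℕ → ℕ × ℕ) (i : ℕ) : Prop :=
  ((Lo k (z i) ∧ Hi k (z (i + 1))) ∨ (Hi k (z i) ∧ Lo k (z (i + 1)))) ∧
    ky p q (z i) = ky p q (z (i + 1))

open Classical in
/-- the number of these segments -/
noncomputable def cnt (k p q : ℕ) (z : ℕ → ℕ × ℕ) (t : ℕ) : ℕ :=
  ((range (t - 1)).filter (Seg k p q z)).card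

open Classical in
theorem cnt_le (hp : 0 < p) (hq : 0 < q) (hgrid : ∀ i, i < t → Gr m (z i))
    (hmono : ∀ i, i + 1 < t → X m u (z i) < X m u (z (i + 1))) :
    cnt k p q z t ≤ 4 * ((p + q) * k) := by
  unfold cnt
  have hcard : (Finset.Ico (-((p * k : ℕ) : ℤ)) ((q * k : ℕ) : ℤ)).card = (p + q) * k := by
    rw [Int.card_Ico, sub_neg_eq_add, add_mul, add_comm]
    norm_cast
  rw [← hcard]
  refine card_le_mul_card_image_of_maps_to (f := fun i => ky p q (z i)) ?_ 4 ?_
  · intro i hi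
    rw [mem_filter, mem_range] at hi
    have hlow : ∀ P : ℕ × ℕ, Lo k P → ky p q P ∈ Finset.Ico (-((p * k : ℕ) : ℤ)) ((q * k : ℕ) : ℤ) := by
      intro P hP
      unfold ky
      rw [Finset.mem_Ico]
      obtain ⟨h1, h2⟩ := hP
      have e1 : (q : ℤ) * P.1 < q * k := by
        apply mul_lt_mul_of_pos_left
        · exact_mod_cast h1
        · exact_mod_cast hq
      have e2 : (p : ℤ) * P.2 ≤ p * k := by
        apply mul_le_mul_of_nonneg_left _ (by positivity)
        exact_mod_cast h2.le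
      have e3 : (0 : ℤ) ≤ (q : ℤ) * P.1 := by positivity
      have e4 : (0 : ℤ) ≤ (p : ℤ) * P.2 := by positivity
      push_cast
      constructor <;> linarith
    obtain ⟨h1, h2 | h2, h3⟩ := hi
    · exact hlow _ h2.1
    · rw [h3]
      exact hlow _ h2.2
  · intro c _
    have hsub : ((range (t - 1)).filter (Seg k p q z)).filter (fun i => ky p q (z i) = c) ⊆
        ((range (t - 1)).filter fun i => Lo k (z i) ∧ Hi k (z (i + 1)) ∧ ky p q (z i) = c ∧
          ky p q (z (i + 1)) = c) ∪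
        ((range (t - 1)).filter fun i => Hi k (z i) ∧ Lo k (z (i + 1)) ∧ ky p q (z i) = c ∧
          ky p q (z (i + 1)) = c) := by
      intro i hi
      rw [mem_filter, mem_filter] at hi
      obtain ⟨⟨h1, h2 | h2, h3⟩, h4⟩ := hi
      · rw [mem_union, mem_filter]
        exact Or.inl ⟨h1, h2.1, h2.2, h4, by rw [← h3]; exact h4⟩
      · rw [mem_union, mem_filter, mem_filter]
        exact Or.inr ⟨h1, h2.1, h2.2, h4, by rw [← h3]; exact h4⟩
    refine (card_le_card hsub).trans ((card_union_le _ _).trans ?_)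
    have hup : ((range (t - 1)).filter fun i => Lo k (z i) ∧ Hi k (z (i + 1)) ∧ ky p q (z i) = c ∧
          ky p q (z (i + 1)) = c).card ≤ 2 := by
      apply card_le_two
      intro i hi j hj l hl hij hjl
      rw [mem_filter, mem_range] at hi hj hl
      refine core (u := u) hp hq hi.2.1 hj.2.1 hl.2.1 hi.2.2.1 hj.2.2.1 (hgrid (i + 1) (by omega))
        (hgrid (j + 1) (by omega)) c hi.2.2.2.1 hj.2.2.2.1 hl.2.2.2.1 hi.2.2.2.2 hj.2.2.2.2 ?_
        (hmono i (by omega)) (hmono j (by omega)) (mono_le hmono (by omega) (by omega))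
        (mono_le hmono (by omega) (by omega))
      intro h
      have := mono_lt hmono (i := i + 1) (j := j + 1) (by omega) (by omega)
      rw [h] at this
      exact lt_irrefl _ this
    have hdown : ((range (t - 1)).filter fun i => Hi k (z i) ∧ Lo k (z (i + 1)) ∧
          ky p q (z i) = c ∧ ky p q (z (i + 1)) = c).card ≤ 2 := by
      apply card_le_two
      intro i hi j hj l hl hij hjl
      rw [mem_filter, mem_range] at hi hj hl
      refine core (u := -u) hp hq hl.2.2.1 hj.2.2.1 hi.2.2.1 hl.2.1 hj.2.1 (hgrid l (by omega))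
        (hgrid j (by omega)) c hl.2.2.2.2 hj.2.2.2.2 hi.2.2.2.2 hl.2.2.2.1 hj.2.2.2.1 ?_ ?_ ?_ ?_ ?_
      · intro h
        have := mono_lt hmono hjl (by omega)
        rw [h] at this
        exact lt_irrefl _ this
      · rw [X_neg, X_neg]
        exact neg_lt_neg (hmono l (by omega))
      · rw [X_neg, X_neg]
        exact neg_lt_neg (hmono j (by omega))
      · rw [X_neg, X_neg]
        exact neg_le_neg (mono_le hmono (by omega) (by omega))
      · rw [X_neg, X_neg]
        exact neg_le_neg (mono_le hmono (by omega) (by omega))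
    omega

/-- the sup norm -/
noncomputable def nu (u : Plane) : ℝ := max |u 0| |u 1|

theorem W_le (u : Plane) : |√2 * u 0 + u 1| ≤ 5 / 2 * nu u := by
  have h0 : |u 0| ≤ nu u := le_max_left _ _
  have h1 : |u 1| ≤ nu u := le_max_right _ _
  have s2 := sqrt2_lt
  have s0 := sqrt2_pos
  calc |√2 * u 0 + u 1| ≤ |√2 * u 0| + |u 1| := abs_add_le _ _
    _ = √2 * |u 0| + |u 1| := by rw [abs_mul, abs_of_pos s0]
    _ ≤ 3 / 2 * nu u + nu u := by
        apply add_le_add _ h1
        exact mul_le_mul s2.le h0 (abs_nonneg _) (by norm_num)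
    _ = 5 / 2 * nu u := by ring

theorem err_le {P Q : ℕ × ℕ} (hP : Gr m P) (hQ : Gr m Q) (u : Plane) :
    |(hh m Q - hh m P) * (√2 * u 0 + u 1)| ≤ 1 / 4 * nu u := by
  have h1 : |hh m Q - hh m P| ≤ 1 / 10 := by
    have := hh_pos m P
    have := hh_pos m Q
    have := hh_le' hP
    have := hh_le' hQ
    rw [abs_le]
    constructor <;> linarith
  rw [abs_mul]
  calc |hh m Q - hh m P| * |√2 * u 0 + u 1| ≤ 1 / 10 * (5 / 2 * nu u) :=
        mul_le_mul h1 (W_le u) (abs_nonneg _) (by norm_num)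
    _ = 1 / 4 * nu u := by ring

theorem range_le {P Q : ℕ × ℕ} (hP : Gr m P) (hQ : Gr m Q) (u : Plane) :
    X m u Q - X m u P ≤ (2 * m + 2) * nu u := by
  have h0 : |u 0| ≤ nu u := le_max_left _ _
  have h1 : |u 1| ≤ nu u := le_max_right _ _
  have hn : 0 ≤ nu u := (abs_nonneg _).trans h0
  have e := (abs_le.mp (err_le hP hQ u)).2
  have c1 := abs_sub_cast_le hQ.1 hP.1
  have c2 := abs_sub_cast_le hQ.2 hP.2
  have d1 : ((Q.1 : ℝ) - P.1) * u 0 ≤ m * nu u := by
    refine (le_abs_self _).trans ?_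
    rw [abs_mul]
    exact mul_le_mul c1 h0 (abs_nonneg _) (Nat.cast_nonneg _)
  have d2 : ((Q.2 : ℝ) - P.2) * u 1 ≤ m * nu u := by
    refine (le_abs_self _).trans ?_
    rw [abs_mul]
    exact mul_le_mul c2 h1 (abs_nonneg _) (Nat.cast_nonneg _)
  rw [X_eq, X_eq]
  nlinarith

theorem step_ge {S : ℕ} (hS : 0 < S) (hqS : q < S) (hq : 0 < q) (hk : S ^ 2 ≤ k)
    (hfar : nu u ≤ 4 * S * |(p : ℝ) * u 0 + q * u 1|) {x y : ℕ × ℕ} (gx : Gr m x) (gy : Gr m y)
    (hx : Lo k x) (hy : Hi k y) (h : ky p q x = ky p q y) :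
    (k : ℝ) * nu u / (2 * S ^ 2) ≤ |X m u y - X m u x| := by
  have hn : 0 ≤ nu u := (abs_nonneg _).trans (le_max_left |u 0| |u 1|)
  have hS' : (0 : ℝ) < S := by exact_mod_cast hS
  have hq' : (0 : ℝ) < q := by exact_mod_cast hq
  have hqS' : (q : ℝ) ≤ S := by exact_mod_cast hqS.le
  have hk' : (S : ℝ) ^ 2 ≤ k := by exact_mod_cast hk
  unfold ky at h
  have h' : (q : ℝ) * x.1 - p * x.2 = q * y.1 - p * y.2 := by exact_mod_cast h
  set M : ℝ := ((y.1 : ℝ) - x.1) * u 0 + ((y.2 : ℝ) - x.2) * u 1 with hM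
  have e1 : q * M = ((y.2 : ℝ) - x.2) * (p * u 0 + q * u 1) := by
    rw [hM]
    linear_combination (- u 0) * h'
  have hb : 3 * (k : ℝ) ≤ (y.2 : ℝ) - x.2 := by
    have h1 : (x.2 : ℝ) ≤ k := by exact_mod_cast hx.2.le
    have h2 : 4 * (k : ℝ) ≤ y.2 := by
      have := hy
      unfold Hi at this
      exact_mod_cast this
    linarith
  have hk0 : (0 : ℝ) ≤ k := Nat.cast_nonneg _
  have e2 : 3 * (k : ℝ) * nu u ≤ 4 * S * (q * |M|) := by
    have h1 : q * |M| = ((y.2 : ℝ) - x.2) * |(p : ℝ) * u 0 + q * u 1| := by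
      rw [← abs_of_pos hq', ← abs_mul, abs_of_pos hq', e1, abs_mul, abs_of_nonneg (by linarith)]
    rw [h1]
    calc 3 * (k : ℝ) * nu u ≤ ((y.2 : ℝ) - x.2) * (4 * S * |(p : ℝ) * u 0 + q * u 1|) :=
          mul_le_mul hb hfar hn (by linarith)
      _ = _ := by ring
  have e3 : 3 * (k : ℝ) * nu u ≤ 4 * S ^ 2 * |M| := by
    refine e2.trans ?_
    have : (q : ℝ) * |M| ≤ S * |M| := mul_le_mul_of_nonneg_right hqS' (abs_nonneg _)
    nlinarith
  have e4 : |M| - 1 / 4 * nu u ≤ |X m u y - X m u x| := by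
    have h1 : X m u y - X m u x = M + (hh m y - hh m x) * (√2 * u 0 + u 1) := by
      rw [X_eq, X_eq, hM]
      ring
    rw [h1]
    have h2 := err_le gx gy u
    have h3 := abs_sub_abs_le_abs_sub M (-((hh m y - hh m x) * (√2 * u 0 + u 1)))
    rw [abs_neg, sub_neg_eq_add] at h3
    linarith
  refine le_trans ?_ e4
  rw [div_le_iff₀ (by positivity)]
  have e5 : (S : ℝ) ^ 2 * nu u ≤ k * nu u := mul_le_mul_of_nonneg_right hk' hn
  nlinarith

open Classical in
theorem cnt_far {S : ℕ} (hS : 0 < S) (hqS : q < S) (hq : 0 < q) (hk : S ^ 2 ≤ k)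
    (hk1 : 1 ≤ k) (hm : m ≤ 6 * k + 6) (hu : u ≠ 0)
    (hfar : nu u ≤ 4 * S * |(p : ℝ) * u 0 + q * u 1|) (hgrid : ∀ i, i < t → Gr m (z i))
    (hmono : ∀ i, i + 1 < t → X m u (z i) < X m u (z (i + 1))) :
    (cnt k p q z t : ℝ) ≤ 52 * S ^ 2 := by
  unfold cnt
  have hn : 0 < nu u := by
    unfold nu
    by_contra hc
    push Not at hc
    have h0 : |u 0| ≤ 0 := (le_max_left _ _).trans hc
    have h1 : |u 1| ≤ 0 := (le_max_right _ _).trans hc
    have h0' := abs_eq_zero.mp (le_antisymm h0 (abs_nonneg _))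
    have h1' := abs_eq_zero.mp (le_antisymm h1 (abs_nonneg _))
    apply hu
    ext i
    fin_cases i
    · simpa using h0'
    · simpa using h1'
  have hS' : (0 : ℝ) < S := by exact_mod_cast hS
  have hk0 : (1 : ℝ) ≤ k := by exact_mod_cast hk1
  have hm' : (m : ℝ) ≤ 6 * k + 6 := by exact_mod_cast hm
  set I := (range (t - 1)).filter (Seg k p q z) with hI
  have hstep : ∀ i ∈ I, (k : ℝ) * nu u / (2 * S ^ 2) ≤ X m u (z (i + 1)) - X m u (z i) := by
    intro i hi
    rw [hI, mem_filter, mem_range] at hi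
    have h1 := hmono i (by omega)
    have h2 : |X m u (z (i + 1)) - X m u (z i)| = X m u (z (i + 1)) - X m u (z i) :=
      abs_of_pos (by linarith)
    obtain ⟨h3, h4 | h4, h5⟩ := hi
    · rw [← h2]
      exact step_ge hS hqS hq hk hfar (hgrid i (by omega)) (hgrid (i + 1) (by omega)) h4.1 h4.2 h5
    · rw [← h2, abs_sub_comm]
      exact step_ge hS hqS hq hk hfar (hgrid (i + 1) (by omega)) (hgrid i (by omega)) h4.2 h4.1
        h5.symm
  have hsum : (I.card : ℝ) * ((k : ℝ) * nu u / (2 * S ^ 2)) ≤ (2 * m + 2) * nu u := by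
    calc (I.card : ℝ) * ((k : ℝ) * nu u / (2 * S ^ 2)) = ∑ i ∈ I, (k : ℝ) * nu u / (2 * S ^ 2) := by
          rw [sum_const, nsmul_eq_mul]
      _ ≤ ∑ i ∈ I, (X m u (z (i + 1)) - X m u (z i)) := sum_le_sum hstep
      _ ≤ ∑ i ∈ range (t - 1), (X m u (z (i + 1)) - X m u (z i)) := by
          apply sum_le_sum_of_subset_of_nonneg (filter_subset _ _)
          intro i hi _
          rw [mem_range] at hi
          have := hmono i (by omega)
          linarith
      _ = X m u (z (t - 1)) - X m u (z 0) := sum_range_sub (fun i => X m u (z i)) (t - 1)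
      _ ≤ (2 * m + 2) * nu u := by
          rcases Nat.eq_zero_or_pos t with h | h
          · rw [h]
            simp only [zero_tsub, sub_self]
            positivity
          · exact range_le (hgrid 0 h) (hgrid (t - 1) (by omega)) u
  have h2 : (I.card : ℝ) * k ≤ (2 * m + 2) * (2 * S ^ 2) := by
    have h3 : (I.card : ℝ) * ((k : ℝ) * nu u / (2 * S ^ 2)) =
        ((I.card : ℝ) * k / (2 * S ^ 2)) * nu u := by ring
    rw [h3] at hsum
    have h4 := le_of_mul_le_mul_right hsum hn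
    rwa [div_le_iff₀ (by positivity)] at h4
  have h5 : (2 * (m : ℝ) + 2) ≤ 26 * k := by linarith
  have h6 : (I.card : ℝ) * k ≤ (52 * S ^ 2) * k := by
    refine h2.trans ?_
    have : (2 * (m : ℝ) + 2) * (2 * S ^ 2) ≤ 26 * k * (2 * S ^ 2) :=
      mul_le_mul_of_nonneg_right h5 (by positivity)
    linarith
  exact le_of_mul_le_mul_right h6 (by linarith)

end path

/-- two directions are not both almost perpendicular to `u` -/
theorem near_unique {S p q p' q' : ℕ} {u : Plane} (hpS : p < S) (hqS : q < S) (hpS' : p' < S)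
    (hqS' : q' < S) (hD : (p : ℤ) * q' ≠ (p' : ℤ) * q)
    (h1 : 4 * S * |(p : ℝ) * u 0 + q * u 1| < nu u)
    (h2 : 4 * S * |(p' : ℝ) * u 0 + q' * u 1| < nu u) : False := by
  obtain ⟨D, hDD⟩ : ∃ D : ℤ, D = (p : ℤ) * q' - p' * q := ⟨_, rfl⟩
  have hD0 : D ≠ 0 := by rw [hDD]; exact sub_ne_zero.mpr hD
  have hD1 : (1 : ℝ) ≤ |(D : ℝ)| := by
    rw [← Int.cast_abs]
    exact_mod_cast Int.one_le_abs hD0
  have hDr : (D : ℝ) = p * q' - p' * q := by rw [hDD]; push_cast; ring
  set a : ℝ := (p : ℝ) * u 0 + q * u 1 with ha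
  set b : ℝ := (p' : ℝ) * u 0 + q' * u 1 with hb
  have hS : (0 : ℝ) < S := by exact_mod_cast (by omega : 0 < S)
  have bp : (p : ℝ) ≤ S := by exact_mod_cast hpS.le
  have bq : (q : ℝ) ≤ S := by exact_mod_cast hqS.le
  have bp' : (p' : ℝ) ≤ S := by exact_mod_cast hpS'.le
  have bq' : (q' : ℝ) ≤ S := by exact_mod_cast hqS'.le
  have e0 : (D : ℝ) * u 0 = a * q' - b * q := by rw [hDr, ha, hb]; ring
  have e1 : (D : ℝ) * u 1 = b * p - a * p' := by rw [hDr, ha, hb]; ring
  have key : ∀ x y c d : ℝ, 0 ≤ c → c ≤ S → 0 ≤ d → d ≤ S → |x * c - y * d| ≤ S * |x| + S * |y| := by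
    intro x y c d hc hc' hd hd'
    calc |x * c - y * d| ≤ |x * c| + |y * d| := abs_sub _ _
      _ = c * |x| + d * |y| := by
          rw [abs_mul, abs_mul, abs_of_nonneg hc, abs_of_nonneg hd]
          ring
      _ ≤ S * |x| + S * |y| := add_le_add (mul_le_mul_of_nonneg_right hc' (abs_nonneg _))
          (mul_le_mul_of_nonneg_right hd' (abs_nonneg _))
  have hu0 : |u 0| ≤ S * |a| + S * |b| := by
    calc |u 0| ≤ |(D : ℝ)| * |u 0| := by nlinarith [abs_nonneg (u 0)]
      _ = |a * q' - b * q| := by rw [← abs_mul, e0]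
      _ ≤ _ := key _ _ _ _ (Nat.cast_nonneg _) bq' (Nat.cast_nonneg _) bq
  have hu1 : |u 1| ≤ S * |a| + S * |b| := by
    calc |u 1| ≤ |(D : ℝ)| * |u 1| := by nlinarith [abs_nonneg (u 1)]
      _ = |b * p - a * p'| := by rw [← abs_mul, e1]
      _ ≤ S * |b| + S * |a| := key _ _ _ _ (Nat.cast_nonneg _) bp (Nat.cast_nonneg _) bp'
      _ = _ := by ring
  have hnu : nu u ≤ S * |a| + S * |b| := max_le hu0 hu1
  have : 0 ≤ S * |a| := by positivity
  have : 0 ≤ S * |b| := by positivity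
  nlinarith

end Pool.Agent.T6.H92.MC
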