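import Mathlib
import Pool.Agent.T6.H92.MC.Lines

set_option autoImplicit false

/-!
# The number of monotone paths
-/

namespace Pool.Agent.T6.H92.MC

open Pool.Agent.R143.MonoPath Finset Filter Topology

/-- the directions `(p, q)`, `q < S` a prime, `0 < p < q`; an element is the pair `⟨q, p⟩` -/
def Dirs (S : ℕ) : Finset (Σ _ : ℕ, ℕ) :=
  ((range S).filter Nat.Prime).sigma fun q => Ioo 0 q

theorem mem_Dirs {S : ℕ} {v : Σ _ : ℕ, ℕ} : v ∈ Dirs S ↔ v.1 < S ∧ v.1.Prime ∧ 0 < v.2 ∧ v.2 < v.1 := by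
  unfold Dirs
  rw [mem_sigma, mem_filter, mem_range, mem_Ioo, and_assoc]

theorem card_Dirs (S : ℕ) : (Dirs S).card ≤ S ^ 2 := by
  unfold Dirs
  rw [card_sigma]
  calc ∑ q ∈ (range S).filter Nat.Prime, (Ioo 0 q).card ≤ ∑ q ∈ (range S).filter Nat.Prime, S := by
        apply sum_le_sum
        intro q hq
        rw [mem_filter, mem_range] at hq
        rw [Nat.card_Ioo]
        omega
    _ ≤ ∑ q ∈ range S, S := sum_le_sum_of_subset (filter_subset _ _)
    _ = S ^ 2 := by rw [sum_const, card_range, smul_eq_mul, sq]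

/-- different directions are not parallel -/
theorem Dirs_det {S : ℕ} {v w : Σ _ : ℕ, ℕ} (hv : v ∈ Dirs S) (hw : w ∈ Dirs S) (h : v ≠ w) :
    (v.2 : ℤ) * w.1 ≠ (w.2 : ℤ) * v.1 := by
  rw [mem_Dirs] at hv hw
  intro he
  apply h
  obtain ⟨q, p⟩ := v
  obtain ⟨q', p'⟩ := w
  simp only at hv hw he
  have he' : p * q' = p' * q := by exact_mod_cast he
  have h1 : q ∣ p * q' := ⟨p', by rw [he', mul_comm]⟩
  have h2 : q = q' := by
    rcases (hv.2.1.dvd_mul).mp h1 with h3 | h3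
    · exact absurd (Nat.le_of_dvd hv.2.2.1 h3) (by omega)
    · exact (Nat.prime_dvd_prime_iff_eq hv.2.1 hw.2.1).mp h3
  subst h2
  have h3 : p = p' := Nat.eq_of_mul_eq_mul_right hv.2.1.pos he'
  subst h3
  rfl

section cover

variable {m k S M : ℕ} {G : Finset (ℕ × ℕ)} {t : Fin M → ℕ} {z : Fin M → ℕ → ℕ × ℕ}

open Classical in
theorem many {p q : ℕ} (hp : 0 < p) (hpq : p < q)
    (hG2 : ∀ P : ℕ × ℕ, P.1 < 6 * k → P.2 < 6 * k → P ∈ G)
    (hcov : ∀ P ∈ G, ∀ Q ∈ G, P ≠ Q → ∃ (s : Fin M) (i : ℕ), i + 1 < t s ∧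
      ((z s i = P ∧ z s (i + 1) = Q) ∨ (z s i = Q ∧ z s (i + 1) = P))) :
    k * (k * (k / q - 1)) ≤ ∑ s, cnt k p q (z s) (t s) := by
  have hq : 0 < q := by omega
  have hsig : ∑ s, cnt k p q (z s) (t s) =
      ((univ : Finset (Fin M)).sigma fun s => (range (t s - 1)).filter (Seg k p q (z s))).card := by
    rw [card_sigma]
    rfl
  have hD : (range k ×ˢ (range k ×ˢ range (k / q - 1))).card = k * (k * (k / q - 1)) := by
    rw [card_product, card_product, card_range, card_range]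
  rw [hsig, ← hD]
  -- the end points
  let y : ℕ × (ℕ × ℕ) → ℕ × ℕ := fun d =>
    (d.1 + (4 * k / q + 1 + d.2.2) * p, d.2.1 + (4 * k / q + 1 + d.2.2) * q)
  have hfacts : ∀ d ∈ (range k ×ˢ (range k ×ˢ range (k / q - 1))), d.1 < k ∧ d.2.1 < k ∧
      4 * k ≤ (y d).2 ∧ (y d).2 < 6 * k ∧ (y d).1 < 6 * k := by
    intro d hd
    rw [mem_product, mem_product, mem_range, mem_range, mem_range] at hd
    obtain ⟨h1, h2, h3⟩ := hd
    have e1 : 4 * k < q * (4 * k / q + 1) := Nat.lt_mul_div_succ _ hq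
    have e2 : q * (4 * k / q) ≤ 4 * k := Nat.mul_div_le _ _
    have e3 : q * (d.2.2 + 2) ≤ k := by
      calc q * (d.2.2 + 2) ≤ q * (k / q) := Nat.mul_le_mul_left q (by omega)
        _ ≤ k := Nat.mul_div_le _ _
    have e4 : (4 * k / q + 1 + d.2.2) * q = q * (4 * k / q + 1) + q * d.2.2 := by ring
    have e5 : q * (4 * k / q + 1) = q * (4 * k / q) + q := by ring
    have e6 : q * (d.2.2 + 2) = q * d.2.2 + 2 * q := by ring
    have e7 : (4 * k / q + 1 + d.2.2) * p ≤ (4 * k / q + 1 + d.2.2) * q :=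
      Nat.mul_le_mul_left _ hpq.le
    have e8 : (4 * k / q + 1 + d.2.2) * q < 5 * k := by
      rw [e4, e5]
      omega
    refine ⟨h1, h2, ?_, ?_, ?_⟩
    · show 4 * k ≤ d.2.1 + (4 * k / q + 1 + d.2.2) * q
      rw [e4]
      omega
    · show d.2.1 + (4 * k / q + 1 + d.2.2) * q < 6 * k
      omega
    · show d.1 + (4 * k / q + 1 + d.2.2) * p < 6 * k
      omega
  refine card_le_card_of_forall_subsingleton (fun d b =>
    (z b.1 b.2 = (d.1, d.2.1) ∧ z b.1 (b.2 + 1) = y d) ∨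
      (z b.1 b.2 = y d ∧ z b.1 (b.2 + 1) = (d.1, d.2.1))) ?_ ?_
  · intro d hd
    obtain ⟨h1, h2, h3, h4, h5⟩ := hfacts d hd
    have hne : ((d.1, d.2.1) : ℕ × ℕ) ≠ y d := by
      intro h
      have : d.2.1 = (y d).2 := congrArg Prod.snd h
      omega
    obtain ⟨s, i, hi, hz⟩ := hcov (d.1, d.2.1) (hG2 _ (by show d.1 < 6 * k; omega)
      (by show d.2.1 < 6 * k; omega)) (y d) (hG2 _ h5 h4) hne
    refine ⟨⟨s, i⟩, ?_, hz⟩
    have hky : ky p q (d.1, d.2.1) = ky p q (y d) := by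
      show (q : ℤ) * (d.1 : ℕ) - (p : ℤ) * (d.2.1 : ℕ) =
        (q : ℤ) * ((d.1 + (4 * k / q + 1 + d.2.2) * p : ℕ) : ℤ) -
          (p : ℤ) * ((d.2.1 + (4 * k / q + 1 + d.2.2) * q : ℕ) : ℤ)
      push_cast
      ring
    have hlo : Lo k (d.1, d.2.1) := ⟨h1, h2⟩
    have hhi : Hi k (y d) := h3
    rw [mem_sigma]
    refine ⟨mem_univ _, ?_⟩
    rw [mem_filter, mem_range]
    refine ⟨by show i < t s - 1; omega, ?_⟩
    show Seg k p q (z s) i
    unfold Seg
    rcases hz with ⟨ha, hb⟩ | ⟨ha, hb⟩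
    · rw [ha, hb]
      exact ⟨Or.inl ⟨hlo, hhi⟩, hky⟩
    · rw [ha, hb]
      exact ⟨Or.inr ⟨hhi, hlo⟩, hky.symm⟩
  · intro b _ d hd d' hd'
    obtain ⟨hdm, hr⟩ := hd
    obtain ⟨hdm', hr'⟩ := hd'
    obtain ⟨h1, h2, h3, h4, h5⟩ := hfacts d hdm
    obtain ⟨h1', h2', h3', h4', h5'⟩ := hfacts d' hdm'
    have hmain : ((d.1, d.2.1) : ℕ × ℕ) = (d'.1, d'.2.1) ∧ y d = y d' := by
      rcases hr with ⟨ha, hb⟩ | ⟨ha, hb⟩ <;> rcases hr' with ⟨ha', hb'⟩ | ⟨ha', hb'⟩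
      · exact ⟨ha.symm.trans ha', hb.symm.trans hb'⟩
      · exfalso
        have : ((d.1, d.2.1) : ℕ × ℕ) = y d' := ha.symm.trans ha'
        have : d.2.1 = (y d').2 := congrArg Prod.snd this
        omega
      · exfalso
        have : y d = ((d'.1, d'.2.1) : ℕ × ℕ) := ha.symm.trans ha'
        have : (y d).2 = d'.2.1 := congrArg Prod.snd this
        omega
      · exact ⟨hb.symm.trans hb', ha.symm.trans ha'⟩
    obtain ⟨g1, g2⟩ := hmain
    have f1 : d.1 = d'.1 := (Prod.mk.inj g1).1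
    have f2 : d.2.1 = d'.2.1 := (Prod.mk.inj g1).2
    have f3 : d.2.1 + (4 * k / q + 1 + d.2.2) * q = d'.2.1 + (4 * k / q + 1 + d'.2.2) * q :=
      congrArg Prod.snd g2
    rw [f2] at f3
    have f4 := Nat.eq_of_mul_eq_mul_right hq (Nat.add_left_cancel f3)
    have f5 : d.2.2 = d'.2.2 := by omega
    exact Prod.ext f1 (Prod.ext f2 f5)

theorem lower {q : ℕ} (hq2 : 2 ≤ q) (hqS : q < S) (hk : 4 * S ^ 4 ≤ k) :
    (k : ℝ) ^ 2 / (16 * q ^ 2) ≤ ((k * (k * (k / q - 1)) : ℕ) : ℝ) / (8 * q * k) := by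
  have hS : 1 ≤ S := by omega
  have h1 : S ≤ S ^ 4 := by
    calc S = S ^ 1 := (pow_one S).symm
      _ ≤ S ^ 4 := Nat.pow_le_pow_right hS (by norm_num)
  have hk4 : 4 * q ≤ k := by omega
  have hkpos : 0 < k := by omega
  have hq0 : (0 : ℝ) < q := by exact_mod_cast (by omega : 0 < q)
  have hk0 : (0 : ℝ) < k := by exact_mod_cast hkpos
  have hk4' : 4 * (q : ℝ) ≤ k := by exact_mod_cast hk4
  have h2 : 1 ≤ k / q := (Nat.one_le_div_iff (by omega)).mpr (by omega)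
  have h3 : (k : ℝ) < q * (((k / q : ℕ) : ℝ) + 1) := by
    exact_mod_cast Nat.lt_mul_div_succ k (by omega : 0 < q)
  have h4 : ((k / q - 1 : ℕ) : ℝ) = ((k / q : ℕ) : ℝ) - 1 := by
    rw [Nat.cast_sub h2, Nat.cast_one]
  have h5 : (k : ℝ) ≤ 2 * q * ((k / q - 1 : ℕ) : ℝ) := by
    rw [h4]
    nlinarith
  have h6 : ((k * (k * (k / q - 1)) : ℕ) : ℝ) = k * (k * ((k / q - 1 : ℕ) : ℝ)) := by
    push_cast
    ring
  rw [h6, div_le_div_iff₀ (by positivity) (by positivity)]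
  have h7 : (k : ℝ) ^ 2 * (8 * q * k) = (8 * q * k ^ 2) * k := by ring
  have h8 : (k : ℝ) * (k * ((k / q - 1 : ℕ) : ℝ)) * (16 * q ^ 2) =
      (8 * q * k ^ 2) * (2 * q * ((k / q - 1 : ℕ) : ℝ)) := by ring
  rw [h7, h8]
  exact mul_le_mul_of_nonneg_left h5 (by positivity)

open Classical in
theorem per_path {u : Plane} {z : ℕ → ℕ × ℕ} {t : ℕ} (hS : 2 ≤ S) (hk : 4 * S ^ 4 ≤ k)
    (hm : m ≤ 6 * k + 6) (hu : u ≠ 0) (hgrid : ∀ i, i < t → Gr m (z i))
    (hmono : ∀ i, i + 1 < t → X m u (z i) < X m u (z (i + 1))) :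
    ∑ v ∈ Dirs S, (cnt k v.2 v.1 z t : ℝ) / (8 * v.1 * k) ≤ 2 := by
  have hS4 : S ^ 2 ≤ S ^ 4 := Nat.pow_le_pow_right (by omega) (by norm_num)
  have hS0 : 0 < S ^ 4 := by positivity
  have hkpos : 0 < k := by omega
  have hk0 : (0 : ℝ) < k := by exact_mod_cast hkpos
  have hSr : (0 : ℝ) < S := by exact_mod_cast (by omega : 0 < S)
  have hkr : 4 * (S : ℝ) ^ 4 ≤ k := by exact_mod_cast hk
  let near : (Σ _ : ℕ, ℕ) → Prop := fun v => 4 * S * |(v.2 : ℝ) * u 0 + v.1 * u 1| < nu u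
  have hterm : ∀ v ∈ Dirs S, (cnt k v.2 v.1 z t : ℝ) / (8 * v.1 * k) ≤
      (if near v then 1 else 0) + 52 * S ^ 2 / (16 * k) := by
    intro v hv
    rw [mem_Dirs] at hv
    obtain ⟨h1, h2, h3, h4⟩ := hv
    have hq2 : (2 : ℝ) ≤ v.1 := by exact_mod_cast h2.two_le
    have hpos : (0 : ℝ) < 8 * v.1 * k := by positivity
    have hnn : (0 : ℝ) ≤ 52 * S ^ 2 / (16 * k) := by positivity
    by_cases hn : near v
    · rw [if_pos hn]
      have h5 := cnt_le (m := m) (k := k) (p := v.2) (q := v.1) (u := u) h3 h2.pos hgrid hmono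
      have h6 : (cnt k v.2 v.1 z t : ℝ) ≤ 8 * v.1 * k := by
        have h7 : 4 * ((v.2 + v.1) * k) ≤ 8 * v.1 * k := by
          have : (v.2 + v.1) * k ≤ (2 * v.1) * k := Nat.mul_le_mul_right k (by omega)
          nlinarith
        exact_mod_cast h5.trans h7
      have h8 : (cnt k v.2 v.1 z t : ℝ) / (8 * v.1 * k) ≤ 1 := by
        rw [div_le_one hpos]
        exact h6
      linarith
    · rw [if_neg hn, zero_add]
      have hfar : nu u ≤ 4 * S * |(v.2 : ℝ) * u 0 + v.1 * u 1| := not_lt.mp hn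
      have h5 := cnt_far (m := m) (k := k) (p := v.2) (q := v.1) (u := u) (z := z) (t := t)
        (S := S) (by omega) h1 h2.pos (by omega) (by omega) hm hu hfar hgrid hmono
      have h6 : (16 : ℝ) * k ≤ 8 * v.1 * k := by nlinarith
      calc (cnt k v.2 v.1 z t : ℝ) / (8 * v.1 * k) ≤ 52 * S ^ 2 / (8 * v.1 * k) :=
            div_le_div_of_nonneg_right h5 hpos.le
        _ ≤ 52 * S ^ 2 / (16 * k) := div_le_div_of_nonneg_left (by positivity) (by positivity) h6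
  refine (sum_le_sum hterm).trans ?_
  rw [sum_add_distrib, sum_const, nsmul_eq_mul, ← sum_filter, sum_const, nsmul_eq_mul, mul_one]
  have hnear : ((Dirs S).filter near).card ≤ 1 := by
    rw [card_le_one]
    intro v hv w hw
    rw [mem_filter] at hv hw
    by_contra hne
    have hv' := mem_Dirs.mp hv.1
    have hw' := mem_Dirs.mp hw.1
    exact near_unique (by omega) hv'.1 (by omega) hw'.1 (Dirs_det hv.1 hw.1 hne) hv.2 hw.2
  have h1 : (((Dirs S).filter near).card : ℝ) ≤ 1 := by exact_mod_cast hnear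
  have h2 : ((Dirs S).card : ℝ) ≤ S ^ 2 := by exact_mod_cast card_Dirs S
  have h3 : ((Dirs S).card : ℝ) * (52 * S ^ 2 / (16 * k)) ≤ 1 := by
    calc ((Dirs S).card : ℝ) * (52 * S ^ 2 / (16 * k)) ≤ S ^ 2 * (52 * S ^ 2 / (16 * k)) :=
          mul_le_mul_of_nonneg_right h2 (by positivity)
      _ = 52 * S ^ 4 / (16 * k) := by ring
      _ ≤ 1 := by
          rw [div_le_one (by positivity)]
          have : (0 : ℝ) ≤ S ^ 4 := by positivity
          linarith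
  linarith

theorem sum_Dirs (S : ℕ) (c : ℝ) (hc : 0 ≤ c) :
    c / 2 * ∑ q ∈ (range S).filter Nat.Prime, 1 / (q : ℝ) ≤ ∑ v ∈ Dirs S, c / (v.1 : ℝ) ^ 2 := by
  unfold Dirs
  rw [sum_sigma, mul_sum]
  apply sum_le_sum
  intro q hq
  rw [mem_filter, mem_range] at hq
  simp only
  rw [sum_const, Nat.card_Ioo, nsmul_eq_mul]
  have h2 := hq.2.two_le
  have h2' : (2 : ℝ) ≤ q := by exact_mod_cast h2
  have h3 : ((q - 0 - 1 : ℕ) : ℝ) = (q : ℝ) - 1 := by
    rw [Nat.sub_zero, Nat.cast_sub (by omega), Nat.cast_one]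
  rw [h3]
  have h4 : c / 2 * (1 / (q : ℝ)) = (q / 2) * (c / (q : ℝ) ^ 2) := by
    field_simp
  rw [h4]
  apply mul_le_mul_of_nonneg_right _ (by positivity)
  linarith

/-- the main estimate -/
theorem main_count (hS : 2 ≤ S) (hk : 4 * S ^ 4 ≤ k) (hm : m ≤ 6 * k + 6)
    (hG1 : ∀ P ∈ G, Gr m P) (hG2 : ∀ P : ℕ × ℕ, P.1 < 6 * k → P.2 < 6 * k → P ∈ G)
    (hcov : HasCover (G.image (f m)) M) :
    (k : ℝ) ^ 2 / 64 * ∑ q ∈ (range S).filter Nat.Prime, 1 / (q : ℝ) ≤ M := by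
  classical
  obtain ⟨t, v, hv, hc⟩ := hcov
  -- the grid points of the paths
  have hpre : ∀ (s : Fin M) (i : Fin (t s)), ∃ P ∈ G, f m P = v s i := fun s i =>
    mem_image.mp ((hv s).1 i)
  choose g hg1 hg2 using hpre
  let z : Fin M → ℕ → ℕ × ℕ := fun s i => if h : i < t s then g s ⟨i, h⟩ else (0, 0)
  have hz : ∀ (s : Fin M) (i : ℕ) (h : i < t s), z s i = g s ⟨i, h⟩ := by
    intro s i h
    show (if h : i < t s then g s ⟨i, h⟩ else (0, 0)) = _
    rw [dif_pos h]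
  have hgrid : ∀ (s : Fin M) (i : ℕ), i < t s → Gr m (z s i) := by
    intro s i h
    rw [hz s i h]
    exact hG1 _ (hg1 _ _)
  choose u hu hmono using fun s => (hv s).2
  have hmono' : ∀ (s : Fin M) (i : ℕ), i + 1 < t s →
      X m (u s) (z s i) < X m (u s) (z s (i + 1)) := by
    intro s i h
    rw [hz s i (by omega), hz s (i + 1) h]
    have h1 := hmono s ⟨i, by omega⟩ ⟨i + 1, h⟩ rfl
    rw [← hg2, ← hg2, inner_sub_left] at h1
    unfold X
    linarith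
  have hcov' : ∀ P ∈ G, ∀ Q ∈ G, P ≠ Q → ∃ (s : Fin M) (i : ℕ), i + 1 < t s ∧
      ((z s i = P ∧ z s (i + 1) = Q) ∨ (z s i = Q ∧ z s (i + 1) = P)) := by
    intro P hP Q hQ hne
    obtain ⟨s, i, j, hij, he⟩ := hc (f m P) (mem_image_of_mem _ hP) (f m Q) (mem_image_of_mem _ hQ)
      (fun h => hne (f_inj (hG1 P hP) (hG1 Q hQ) h))
    have hj := j.2
    rw [hij] at hj
    refine ⟨s, i, hj, ?_⟩
    have e1 : z s i = g s i := hz s i i.2
    have e2 : z s (i + 1) = g s j := by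
      rw [hz s (i + 1) hj]
      congr 1
      exact Fin.ext hij.symm
    have key : ∀ (i : Fin (t s)) (P : ℕ × ℕ), P ∈ G → v s i = f m P → g s i = P := by
      intro i P hP h
      exact f_inj (hG1 _ (hg1 _ _)) (hG1 _ hP) ((hg2 s i).trans h)
    rw [e1, e2]
    rcases he with ⟨ha, hb⟩ | ⟨ha, hb⟩
    · exact Or.inl ⟨key i P hP ha, key j Q hQ hb⟩
    · exact Or.inr ⟨key i Q hQ ha, key j P hP hb⟩
  have hS0 : 0 < S ^ 4 := by positivity
  have hkpos : 0 < k := by omega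
  have hk0 : (0 : ℝ) < k := by exact_mod_cast hkpos
  have step1 : ∀ v ∈ Dirs S, (k : ℝ) ^ 2 / 16 / (v.1 : ℝ) ^ 2 ≤
      ∑ s, (cnt k v.2 v.1 (z s) (t s) : ℝ) / (8 * v.1 * k) := by
    intro v hv
    rw [mem_Dirs] at hv
    obtain ⟨h1, h2, h3, h4⟩ := hv
    have hq0 : (0 : ℝ) < v.1 := by exact_mod_cast h2.pos
    have e1 := many (k := k) (M := M) (G := G) (t := t) (z := z) h3 h4 hG2 hcov'
    have e2 := lower (S := S) (k := k) h2.two_le h1 hk
    rw [← sum_div, div_div]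
    refine e2.trans ?_
    apply div_le_div_of_nonneg_right _ (by positivity)
    exact_mod_cast e1
  have step2 := sum_Dirs S ((k : ℝ) ^ 2 / 16) (by positivity)
  have step3 : ∑ v ∈ Dirs S, (k : ℝ) ^ 2 / 16 / (v.1 : ℝ) ^ 2 ≤ 2 * (M : ℝ) := by
    calc ∑ v ∈ Dirs S, (k : ℝ) ^ 2 / 16 / (v.1 : ℝ) ^ 2
        ≤ ∑ v ∈ Dirs S, ∑ s, (cnt k v.2 v.1 (z s) (t s) : ℝ) / (8 * v.1 * k) := sum_le_sum step1
      _ = ∑ s, ∑ v ∈ Dirs S, (cnt k v.2 v.1 (z s) (t s) : ℝ) / (8 * v.1 * k) := sum_comm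
      _ ≤ ∑ _s : Fin M, (2 : ℝ) := sum_le_sum fun s _ =>
          per_path hS hk hm (hu s) (hgrid s) (hmono' s)
      _ = 2 * (M : ℝ) := by
          rw [sum_const, card_univ, Fintype.card_fin, nsmul_eq_mul]
          ring
  have e : (k : ℝ) ^ 2 / 16 / 2 = 2 * ((k : ℝ) ^ 2 / 64) := by ring
  rw [e] at step2
  nlinarith

end cover

/-- the sums of the reciprocals of the primes are unbounded -/
theorem primes_unbounded (C : ℝ) :
    ∃ S : ℕ, 2 ≤ S ∧ C ≤ ∑ q ∈ (range S).filter Nat.Prime, 1 / (q : ℝ) := by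
  have h := not_summable_one_div_on_primes
  rw [not_summable_iff_tendsto_nat_atTop_of_nonneg] at h
  · have h1 := (h.eventually_ge_atTop C).and (eventually_ge_atTop 2)
    obtain ⟨S, hS1, hS2⟩ := h1.exists
    refine ⟨S, hS2, hS1.trans (le_of_eq ?_)⟩
    rw [sum_filter]
    apply sum_congr rfl
    intro q _
    rw [Set.indicator_apply]
    rfl
  · intro n
    apply Set.indicator_nonneg
    intro x _
    positivity

/-- the point set: the points of a grid -/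
theorem exists_grid (n : ℕ) : ∃ G : Finset (ℕ × ℕ), G.card = n ∧
    (∀ P ∈ G, Gr (Nat.sqrt n + 1) P) ∧
    ∀ P : ℕ × ℕ, P.1 < Nat.sqrt n → P.2 < Nat.sqrt n → P ∈ G := by
  obtain ⟨G, h1, h2, h3⟩ := Finset.exists_subsuperset_card_eq
    (s := range (Nat.sqrt n) ×ˢ range (Nat.sqrt n))
    (t := range (Nat.sqrt n + 1) ×ˢ range (Nat.sqrt n + 1)) (n := n)
    (product_subset_product (range_subset_range.mpr (by omega)) (range_subset_range.mpr (by omega)))
    (by rw [card_product, card_range]; exact Nat.sqrt_le n)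
    (by rw [card_product, card_range]; exact (Nat.lt_succ_sqrt n).le)
  refine ⟨G, h3, ?_, ?_⟩
  · intro P hP
    have := h2 hP
    rw [mem_product, mem_range, mem_range] at this
    exact this
  · intro P hP1 hP2
    apply h1
    rw [mem_product, mem_range, mem_range]
    exact ⟨hP1, hP2⟩

theorem final : ∃ α : ℝ, 0 < α ∧ ∃ A : ℕ → Finset Plane,
    (∀ n, (A n).card = n ∧ GeneralPosition (A n) ∧ IsDense α (A n)) ∧
      Tendsto (fun n => (mc (A n) : ℝ) / n) atTop atTop := by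
  classical
  choose G hG1 hG2 hG3 using exists_grid
  have hcard : ∀ n, ((G n).image (f (Nat.sqrt n + 1))).card = n := by
    intro n
    rw [Finset.card_image_of_injOn, hG1]
    intro P hP Q hQ h
    exact f_inj (hG2 n P hP) (hG2 n Q hQ) h
  refine ⟨8, by norm_num, fun n => (G n).image (f (Nat.sqrt n + 1)), ?_, ?_⟩
  · intro n
    refine ⟨hcard n, ?_, ?_⟩
    · intro a ha b hb c hc hab hbc hac
      obtain ⟨P, hP, rfl⟩ := mem_image.mp ha
      obtain ⟨Q, hQ, rfl⟩ := mem_image.mp hb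
      obtain ⟨R, hR, rfl⟩ := mem_image.mp hc
      exact general (hG2 n P hP) (hG2 n Q hQ) (hG2 n R hR) (fun h => hab (congrArg _ h))
        (fun h => hbc (congrArg _ h)) (fun h => hac (congrArg _ h))
    · intro a ha b hb c hc d hd hcd
      rw [hcard n]
      obtain ⟨P, hP, rfl⟩ := mem_image.mp ha
      obtain ⟨Q, hQ, rfl⟩ := mem_image.mp hb
      obtain ⟨R, hR, rfl⟩ := mem_image.mp hc
      obtain ⟨T, hT, rfl⟩ := mem_image.mp hd
      have h1 := far (hG2 n P hP) (hG2 n Q hQ)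
      have h2 := near (hG2 n R hR) (hG2 n T hT) (fun h => hcd (congrArg _ h))
      have hn : 1 ≤ n := by
        rw [← hG1 n]
        exact card_pos.mpr ⟨P, hP⟩
      have hr1 : 1 ≤ Nat.sqrt n := Nat.le_sqrt'.mpr (by simpa using hn)
      have h3 : ((Nat.sqrt n + 1 : ℕ) : ℝ) ≤ 2 * √(n : ℝ) := by
        have h4 : ((Nat.sqrt n : ℕ) : ℝ) ≤ √(n : ℝ) := by
          apply Real.le_sqrt_of_sq_le
          have : (Nat.sqrt n) ^ 2 ≤ n := Nat.sqrt_le' n
          exact_mod_cast this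
        have h5 : (1 : ℝ) ≤ ((Nat.sqrt n : ℕ) : ℝ) := by exact_mod_cast hr1
        push_cast
        linarith
      have h6 : 0 ≤ √(n : ℝ) := Real.sqrt_nonneg _
      have h7 : 8 * √(n : ℝ) * (1 / 2) ≤
          8 * √(n : ℝ) * dist (f (Nat.sqrt n + 1) R) (f (Nat.sqrt n + 1) T) :=
        mul_le_mul_of_nonneg_left h2 (by positivity)
      linarith
  · rw [tendsto_atTop]
    intro C
    obtain ⟨S, hS, hC⟩ := primes_unbounded (64 * 144 * max C 0)
    have hbig : ∀ᶠ n : ℕ in atTop, (6 * (4 * S ^ 4) + 6) ^ 2 ≤ n := eventually_ge_atTop _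
    filter_upwards [hbig, eventually_ge_atTop 1] with n hn hn1
    set r := Nat.sqrt n with hr
    obtain ⟨k, hk⟩ : ∃ k, k = r / 6 := ⟨_, rfl⟩
    have hr6 : 6 * (4 * S ^ 4) + 6 ≤ r := Nat.le_sqrt'.mpr hn
    have hk1 : 4 * S ^ 4 ≤ k := by omega
    have hk2 : r + 1 ≤ 6 * k + 6 := by omega
    have hk3 : 6 * k ≤ r := by omega
    have hS4 : 0 < S ^ 4 := by positivity
    have hk4 : 1 ≤ k := by omega
    have hmain := main_count (G := G n) hS hk1 hk2 (hG2 n)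
      (fun P h1 h2 => hG3 n P (by rw [← hr]; omega) (by rw [← hr]; omega))
      (hasCover_mc ((G n).image (f (r + 1))))
    have hnk : (n : ℝ) ≤ 144 * (k : ℝ) ^ 2 := by
      have h1 : n < (r + 1) * (r + 1) := Nat.lt_succ_sqrt n
      have h2 : r + 1 ≤ 12 * k := by omega
      have h3 : (r + 1) * (r + 1) ≤ (12 * k) * (12 * k) := Nat.mul_le_mul h2 h2
      have h4 : n ≤ 144 * k ^ 2 := by nlinarith
      exact_mod_cast h4
    have hn0 : (0 : ℝ) < n := by exact_mod_cast hn1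
    rw [le_div_iff₀ hn0]
    refine le_trans ?_ hmain
    have hk0 : (0 : ℝ) ≤ (k : ℝ) ^ 2 / 64 := by positivity
    have h5 := mul_le_mul_of_nonneg_left hC hk0
    have h6 : C * n ≤ max C 0 * n := mul_le_mul_of_nonneg_right (le_max_left _ _) hn0.le
    have h7 : max C 0 * n ≤ max C 0 * (144 * (k : ℝ) ^ 2) :=
      mul_le_mul_of_nonneg_left hnk (le_max_right _ _)
    linarith

end Pool.Agent.T6.H92.MC
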